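import Mathlib
import Pool.Agent.H929R2.Hart.Main1

set_option autoImplicit false

namespace Pool.Agent.Results.MP_9a3fdb_ag.TorusStable

open MvPolynomial Pool.Agent.H929R2.Hart

/-- `I` is the homogeneous ideal of a nonsingular irreducible closed subvariety `X` of
codimension `r` of the complex projective space `ℙⁿ`: it is a homogeneous prime ideal, `X` is not
empty, and at every point of `X` the gradients of the elements of `I` span a space of dimension
`r` (Jacobian criterion). -/
structure IsSmoothVariety (n r : ℕ) (I : Ideal (MvPolynomial (Fin (n + 1)) ℂ)) : Prop where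
  prime : I.IsPrime
  homogeneous : ∀ F ∈ I, ∀ d, homogeneousComponent d F ∈ I
  nonempty : ∃ x ∈ cone I, x ≠ 0
  smooth : ∀ x ∈ cone I, x ≠ 0 → Module.finrank ℂ (conormal I x) = r

/-- `X` is a transversal intersection of `r` hypersurfaces: there are forms `F_1, …, F_r` with
`X = V(F_1, …, F_r)`, with linearly independent differentials at every point of `X`, and
generating the homogeneous ideal `I` of `X`. -/
def IsTransversalIntersection (n r : ℕ) (I : Ideal (MvPolynomial (Fin (n + 1)) ℂ)) : Prop :=
  ∃ F : Fin r → MvPolynomial (Fin (n + 1)) ℂ, (∀ i, ∃ d, (F i).IsHomogeneous d) ∧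
    (∀ x, x ∈ cone I ↔ ∀ i, eval x (F i) = 0) ∧
    (∀ x ∈ cone I, x ≠ 0 → LinearIndependent ℂ (fun i => grad (F i) x)) ∧
    I = Ideal.span (Set.range F)

/-- Let `X ⊂ ℙⁿ` be a nonsingular irreducible closed subvariety of codimension `r`, stable under
the action `t ⋅ (x_0 : … : x_n) = (t^{w_0} x_0 : … : t^{w_n} x_n)` of the multiplicative group
with pairwise distinct integral weights `w_0, …, w_n`. If `n ≥ 6 r`, then `X` is a transversal
intersection of `r` hypersurfaces. -/
theorem result (n r : ℕ) (hn : 6 * r ≤ n) (I : Ideal (MvPolynomial (Fin (n + 1)) ℂ))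
    (hI : IsSmoothVariety n r I) (w : Fin (n + 1) → ℤ) (hw : Function.Injective w)
    (hst : ∀ t : ℂ, t ≠ 0 → ∀ x ∈ cone I, (fun i => t ^ w i * x i) ∈ cone I) :
    IsTransversalIntersection n r I :=
  main_distinct n r (Fintype.card_fin _) hn I hI.prime hI.homogeneous hI.nonempty hI.smooth w hw
    hst

end Pool.Agent.Results.MP_9a3fdb_ag.TorusStable
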